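import Pool.Agent.X265.Ngo.Gen

/-!
# The surfaces `x y = P(z)`: coordinate rings, triangular and linear automorphisms
-/

set_option autoImplicit false

namespace Pool.Agent.X265.Dan

open scoped Polynomial

variable {k : Type} [CommRing k]

/-- the polynomial `x y - P(z)` -/
noncomputable def rel (P : k[X]) : MvPolynomial (Fin 3) k :=
  MvPolynomial.X 0 * MvPolynomial.X 1 - Polynomial.aeval (MvPolynomial.X 2) P

/-- the coordinate ring `k[x, y, z] / (x y - P(z))` -/
def SA (P : k[X]) : Type := MvPolynomial (Fin 3) k ⧸ Ideal.span {rel P}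

noncomputable instance (P : k[X]) : CommRing (SA P) :=
  inferInstanceAs (CommRing (MvPolynomial (Fin 3) k ⧸ Ideal.span {rel P}))

noncomputable instance (P : k[X]) : Algebra k (SA P) :=
  inferInstanceAs (Algebra k (MvPolynomial (Fin 3) k ⧸ Ideal.span {rel P}))

variable {P : k[X]}

/-- the projection -/
noncomputable def mkS (P : k[X]) : MvPolynomial (Fin 3) k →ₐ[k] SA P :=
  Ideal.Quotient.mkₐ k (Ideal.span {rel P})

theorem mkS_surj : Function.Surjective (mkS P) := Ideal.Quotient.mk_surjective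

theorem mkS_zero {a : MvPolynomial (Fin 3) k} : mkS P a = 0 ↔ ∃ b, b * rel P = a := by
  rw [← Ideal.mem_span_singleton']
  exact Ideal.Quotient.eq_zero_iff_mem

/-- the function `x` -/
noncomputable def gx (P : k[X]) : SA P := mkS P (MvPolynomial.X 0)
/-- the function `y` -/
noncomputable def gy (P : k[X]) : SA P := mkS P (MvPolynomial.X 1)
/-- the function `z` -/
noncomputable def gz (P : k[X]) : SA P := mkS P (MvPolynomial.X 2)

theorem gxy : gx P * gy P = Polynomial.aeval (gz P) P := by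
  have h : mkS P (rel P) = 0 := mkS_zero.2 ⟨1, one_mul _⟩
  unfold rel at h
  rw [map_sub, map_mul, ← Polynomial.aeval_algHom_apply, sub_eq_zero] at h
  exact h

/-- the homomorphism given by a point -/
noncomputable def pt {R : Type} [CommRing R] [Algebra k R] (x y z : R)
    (h : x * y = Polynomial.aeval z P) : SA P →ₐ[k] R :=
  Ideal.Quotient.liftₐ (Ideal.span {rel P}) (MvPolynomial.aeval ![x, y, z]) (by
    intro a ha
    rw [Ideal.mem_span_singleton'] at ha
    obtain ⟨b, rfl⟩ := ha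
    rw [map_mul]
    unfold rel
    rw [map_sub, map_mul, ← Polynomial.aeval_algHom_apply, MvPolynomial.aeval_X, MvPolynomial.aeval_X,
      MvPolynomial.aeval_X]
    show _ * (x * y - Polynomial.aeval z P) = 0
    rw [h, sub_self, mul_zero])

section pts

variable {R : Type} [CommRing R] [Algebra k R] (x y z : R) (h : x * y = Polynomial.aeval z P)

theorem pt_x : pt x y z h (gx P) = x := by
  show (MvPolynomial.aeval ![x, y, z] : MvPolynomial (Fin 3) k →ₐ[k] R) (MvPolynomial.X 0) = x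
  rw [MvPolynomial.aeval_X]
  rfl

theorem pt_y : pt x y z h (gy P) = y := by
  show (MvPolynomial.aeval ![x, y, z] : MvPolynomial (Fin 3) k →ₐ[k] R) (MvPolynomial.X 1) = y
  rw [MvPolynomial.aeval_X]
  rfl

theorem pt_z : pt x y z h (gz P) = z := by
  show (MvPolynomial.aeval ![x, y, z] : MvPolynomial (Fin 3) k →ₐ[k] R) (MvPolynomial.X 2) = z
  rw [MvPolynomial.aeval_X]
  rfl

theorem hom_ext {f g : SA P →ₐ[k] R} (hx : f (gx P) = g (gx P)) (hy : f (gy P) = g (gy P))
    (hz : f (gz P) = g (gz P)) : f = g := by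
  have h1 : f.comp (mkS P) = g.comp (mkS P) := by
    apply MvPolynomial.algHom_ext
    intro i
    fin_cases i
    · exact hx
    · exact hy
    · exact hz
  apply AlgHom.ext
  intro a
  obtain ⟨a, rfl⟩ := mkS_surj a
  exact DFunLike.congr_fun h1 a

end pts

/-! ## `x` is not a zero divisor -/

theorem X0_dvd (b : MvPolynomial (Fin 3) k) : MvPolynomial.X 0 ∣
    b - (MvPolynomial.aeval ![0, MvPolynomial.X 1, MvPolynomial.X 2] :
      MvPolynomial (Fin 3) k →ₐ[k] MvPolynomial (Fin 3) k) b := by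
  induction b using MvPolynomial.induction_on with
  | C a =>
    rw [MvPolynomial.aeval_C]
    show _ ∣ MvPolynomial.C a - MvPolynomial.C a
    rw [sub_self]
    exact dvd_zero _
  | add p q hp hq =>
    rw [map_add, add_sub_add_comm]
    exact dvd_add hp hq
  | mul_X p i hp =>
    rw [map_mul, MvPolynomial.aeval_X]
    fin_cases i
    · show MvPolynomial.X 0 ∣ p * MvPolynomial.X 0 - _ * 0
      rw [mul_zero, sub_zero]
      exact dvd_mul_left _ _
    · show MvPolynomial.X 0 ∣ p * MvPolynomial.X 1 - _ * MvPolynomial.X 1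
      rw [← sub_mul]
      exact dvd_mul_of_dvd_left hp _
    · show MvPolynomial.X 0 ∣ p * MvPolynomial.X 2 - _ * MvPolynomial.X 2
      rw [← sub_mul]
      exact dvd_mul_of_dvd_left hp _

theorem gx_reg [IsDomain k] (hP : P ≠ 0) {a : SA P} (h : gx P * a = 0) : a = 0 := by
  obtain ⟨a, rfl⟩ := mkS_surj a
  have h1 : mkS P (MvPolynomial.X 0 * a) = 0 := by
    rw [map_mul]; exact h
  obtain ⟨b, hb⟩ := mkS_zero.1 h1
  have h2 := congrArg (MvPolynomial.aeval ![0, MvPolynomial.X 1, MvPolynomial.X 2] :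
    MvPolynomial (Fin 3) k →ₐ[k] MvPolynomial (Fin 3) k) hb
  unfold rel at h2
  rw [map_mul, map_mul, map_sub, map_mul, ← Polynomial.aeval_algHom_apply, MvPolynomial.aeval_X,
    MvPolynomial.aeval_X, MvPolynomial.aeval_X] at h2
  have h3 : (MvPolynomial.aeval ![0, MvPolynomial.X 1, MvPolynomial.X 2] :
    MvPolynomial (Fin 3) k →ₐ[k] MvPolynomial (Fin 3) k) b *
      (0 * MvPolynomial.X 1 - Polynomial.aeval (MvPolynomial.X 2) P) = 0 := by
    refine h2.trans ?_
    show 0 * _ = (0 : MvPolynomial (Fin 3) k)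
    rw [zero_mul]
  have h4 : Polynomial.aeval (MvPolynomial.X 2 : MvPolynomial (Fin 3) k) P ≠ 0 := by
    intro h0
    apply hP
    have h5 := congrArg (MvPolynomial.aeval ![0, 0, Polynomial.X] :
      MvPolynomial (Fin 3) k →ₐ[k] k[X]) h0
    rw [← Polynomial.aeval_algHom_apply, MvPolynomial.aeval_X, map_zero] at h5
    have h6 : Polynomial.aeval (Polynomial.X : k[X]) P = 0 := h5
    rwa [Polynomial.aeval_X_left_apply] at h6
  rw [zero_mul, zero_sub, mul_neg, neg_eq_zero] at h3
  have h7 := (mul_eq_zero.1 h3).resolve_right h4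
  obtain ⟨b', hb'⟩ := X0_dvd b
  rw [h7, sub_zero] at hb'
  rw [hb', mul_assoc] at hb
  have h8 := mul_left_cancel₀ (MvPolynomial.X_ne_zero 0) hb
  exact mkS_zero.2 ⟨b', h8⟩

/-- automorphisms are determined by the images of `x` and `z` -/
theorem ext_xz [IsDomain k] (hP : P ≠ 0) {g h : SA P ≃ₐ[k] SA P} (hx : g (gx P) = h (gx P))
    (hz : g (gz P) = h (gz P)) : g = h := by
  have hrel : ∀ g : SA P ≃ₐ[k] SA P, g (gx P) * g (gy P) = Polynomial.aeval (g (gz P)) P := by
    intro g
    rw [← map_mul, gxy]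
    exact (Polynomial.aeval_algHom_apply (g : SA P →ₐ[k] SA P) (gz P) P).symm
  have hy : g (gy P) = h (gy P) := by
    have h1 : g (gx P) * (g (gy P) - h (gy P)) = 0 := by
      rw [mul_sub, hrel g, hz, ← hrel h, hx, sub_self]
    have h2 : gx P * g.symm (g (gy P) - h (gy P)) = 0 := by
      apply g.injective
      rw [map_mul, AlgEquiv.apply_symm_apply, h1, map_zero]
    have h3 := gx_reg hP h2
    have h4 : g (gy P) - h (gy P) = 0 := by
      rw [← g.apply_symm_apply (g (gy P) - h (gy P)), h3, map_zero]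
    exact sub_eq_zero.1 h4
  have h5 : (g : SA P →ₐ[k] SA P) = (h : SA P →ₐ[k] SA P) := hom_ext hx hy hz
  apply AlgEquiv.ext
  intro a
  exact DFunLike.congr_fun h5 a

theorem hom_rel {R : Type} [CommRing R] [Algebra k R] (f : SA P →ₐ[k] R) :
    f (gx P) * f (gy P) = Polynomial.aeval (f (gz P)) P := by
  rw [← map_mul, gxy, Polynomial.aeval_algHom_apply]

/-! ## triangular automorphisms -/

/-- `g` is the triangular automorphism with the data `a`, `m`, `n`, `F` -/
def IsJ (g : SA P ≃ₐ[k] SA P) (a m : kˣ) (n : k) (F : k[X]) : Prop :=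
  g (gx P) = (a : k) • gx P ∧
    g (gz P) = (m : k) • gz P + algebraMap k (SA P) n + gx P * Polynomial.aeval (gx P) F

theorem aeval_gx (g : SA P →ₐ[k] SA P) (a : k) (h : g (gx P) = a • gx P) (F : k[X]) :
    g (Polynomial.aeval (gx P) F) = Polynomial.aeval (gx P) (F.comp (a • Polynomial.X)) := by
  rw [← Polynomial.aeval_algHom_apply, h, Polynomial.aeval_comp, map_smul, Polynomial.aeval_X]

theorem IsJ.mul {g h : SA P ≃ₐ[k] SA P} {a m a' m' : kˣ} {n n' : k} {F F' : k[X]}
    (hg : IsJ g a m n F) (hh : IsJ h a' m' n' F') :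
    IsJ (g * h) (a' * a) (m' * m) (m' * n + n')
      ((m' : k) • F + (a : k) • F'.comp ((a : k) • Polynomial.X)) := by
  obtain ⟨g1, g2⟩ := hg
  obtain ⟨h1, h2⟩ := hh
  refine ⟨?_, ?_⟩
  · rw [AlgEquiv.mul_apply, h1, map_smul, g1, smul_smul, Units.val_mul]
  · have e := aeval_gx (g : SA P →ₐ[k] SA P) _ g1 F'
    rw [AlgEquiv.mul_apply, h2, map_add, map_add, map_smul, g2, map_mul, g1,
      show g (Polynomial.aeval (gx P) F') = _ from e, AlgEquiv.commutes]
    simp only [Algebra.smul_def, map_add, map_mul, AlgHom.commutes, Units.val_mul]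
    ring

theorem IsJ.inv {g : SA P ≃ₐ[k] SA P} {a m : kˣ} {n : k} {F : k[X]} (hg : IsJ g a m n F) :
    IsJ g⁻¹ a⁻¹ m⁻¹ (-(((m⁻¹ : kˣ) : k) * n))
      (-((((m⁻¹ : kˣ) : k) * ((a⁻¹ : kˣ) : k)) • F.comp (((a⁻¹ : kˣ) : k) • Polynomial.X))) := by
  obtain ⟨g1, g2⟩ := hg
  have e1 : g⁻¹ (gx P) = ((a⁻¹ : kˣ) : k) • gx P := by
    have : g⁻¹ (g (gx P)) = gx P := g.symm_apply_apply _
    rw [g1, map_smul] at this
    calc g⁻¹ (gx P) = ((a⁻¹ : kˣ) : k) • (a : k) • g⁻¹ (gx P) := by
          rw [smul_smul, Units.inv_mul, one_smul]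
      _ = _ := by rw [this]
  refine ⟨e1, ?_⟩
  have e2 := aeval_gx ((g⁻¹ : SA P ≃ₐ[k] SA P) : SA P →ₐ[k] SA P) _ e1 F
  have : g⁻¹ (g (gz P)) = gz P := g.symm_apply_apply _
  rw [g2, map_add, map_add, map_smul, map_mul, e1,
    show g⁻¹ (Polynomial.aeval (gx P) F) = _ from e2, AlgEquiv.commutes] at this
  have e3 : (m : k) • g⁻¹ (gz P) = gz P - algebraMap k (SA P) n - ((a⁻¹ : kˣ) : k) • gx P *
      Polynomial.aeval (gx P) (F.comp (((a⁻¹ : kˣ) : k) • Polynomial.X)) := by
    linear_combination this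
  calc g⁻¹ (gz P) = ((m⁻¹ : kˣ) : k) • (m : k) • g⁻¹ (gz P) := by
        rw [smul_smul, Units.inv_mul, one_smul]
    _ = _ := by
      rw [e3]
      have e4 : algebraMap k (SA P) ((m⁻¹ : kˣ) : k) * algebraMap k (SA P) (m : k) = 1 := by
        rw [← map_mul, Units.inv_mul, map_one]
      simp only [Algebra.smul_def, map_neg, map_mul, AlgHom.commutes]
      ring

theorem isJ_one : IsJ (1 : SA P ≃ₐ[k] SA P) 1 1 0 0 := by
  refine ⟨?_, ?_⟩ <;> simp

variable (P) in
/-- the triangular automorphisms -/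
def J : Subgroup (SA P ≃ₐ[k] SA P) where
  carrier := {g | ∃ a m n F, IsJ g a m n F}
  one_mem' := ⟨1, 1, 0, 0, isJ_one⟩
  mul_mem' := by
    rintro g h ⟨a, m, n, F, hg⟩ ⟨a', m', n', F', hh⟩
    exact ⟨_, _, _, _, hg.mul hh⟩
  inv_mem' := by
    rintro g ⟨a, m, n, F, hg⟩
    exact ⟨_, _, _, _, hg.inv⟩

/-- the point `(P(t), 1, t)` -/
noncomputable def p1 (P : k[X]) : SA P →ₐ[k] k[X] := pt P 1 Polynomial.X (by
  rw [mul_one, Polynomial.aeval_X_left_apply])

theorem p1_x : p1 P (gx P) = P := pt_x _ _ _ _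
theorem p1_y : p1 P (gy P) = 1 := pt_y _ _ _ _
theorem p1_z : p1 P (gz P) = Polynomial.X := pt_z _ _ _ _

/-- the data are determined -/
theorem IsJ.unique [IsDomain k] (hP : 2 ≤ P.natDegree) {g : SA P ≃ₐ[k] SA P} {a m a' m' : kˣ}
    {n n' : k} {F F' : k[X]} (h : IsJ g a m n F) (h' : IsJ g a' m' n' F') :
    a = a' ∧ m = m' ∧ n = n' ∧ F = F' := by
  have hP0 : P ≠ 0 := by
    rintro rfl
    rw [Polynomial.natDegree_zero] at hP
    omega
  obtain ⟨h1, h2⟩ := h
  obtain ⟨k1, k2⟩ := h'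
  have e1 := congrArg (p1 P) (h1.symm.trans k1)
  have e2 := congrArg (p1 P) (h2.symm.trans k2)
  have hev : ∀ G : k[X], p1 P (Polynomial.aeval (gx P) G) = G.comp P := by
    intro G
    rw [← Polynomial.aeval_algHom_apply, p1_x]
    rfl
  rw [map_smul, map_smul, p1_x] at e1
  rw [map_add, map_add, map_add, map_add, map_smul, map_smul, map_mul, map_mul, hev, hev, p1_x, p1_z,
    AlgHom.commutes, AlgHom.commutes] at e2
  have ha : a = a' := by
    have := congrArg Polynomial.leadingCoeff e1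
    rw [Polynomial.smul_eq_C_mul, Polynomial.smul_eq_C_mul, Polynomial.leadingCoeff_mul,
      Polynomial.leadingCoeff_mul, Polynomial.leadingCoeff_C, Polynomial.leadingCoeff_C] at this
    exact Units.ext (mul_right_cancel₀ (Polynomial.leadingCoeff_ne_zero.2 hP0) this)
  have hF : F = F' := by
    by_contra hne
    have hne' : F - F' ≠ 0 := sub_ne_zero.2 hne
    have h3 : P * (F - F').comp P = Polynomial.C ((m' : k) - m) * Polynomial.X +
        Polynomial.C (n' - n) := by
      have e3 : algebraMap k k[X] n = Polynomial.C n := rfl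
      have e4 : algebraMap k k[X] n' = Polynomial.C n' := rfl
      rw [e3, e4, Polynomial.smul_eq_C_mul, Polynomial.smul_eq_C_mul] at e2
      rw [Polynomial.sub_comp, map_sub, map_sub]
      linear_combination e2
    have h4 : (P * (F - F').comp P).natDegree ≤ 1 := by
      rw [h3]
      exact Polynomial.natDegree_linear_le
    have h5 : (F - F').comp P ≠ 0 := by
      intro h0
      rcases Polynomial.comp_eq_zero_iff.1 h0 with h6 | ⟨-, h6⟩
      · exact hne' h6
      · rw [h6, Polynomial.natDegree_C] at hP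
        omega
    rw [Polynomial.natDegree_mul hP0 h5] at h4
    omega
  subst hF
  have h6 : (m : k) • (Polynomial.X : k[X]) + algebraMap k k[X] n =
      (m' : k) • (Polynomial.X : k[X]) + algebraMap k k[X] n' := by
    linear_combination e2
  have e3 : algebraMap k k[X] n = Polynomial.C n := rfl
  have e4 : algebraMap k k[X] n' = Polynomial.C n' := rfl
  rw [e3, e4] at h6
  refine ⟨ha, ?_, ?_, rfl⟩
  · have := congrArg (fun q => Polynomial.coeff q 1) h6
    simp only [Polynomial.coeff_add, Polynomial.coeff_smul, Polynomial.coeff_X_one, smul_eq_mul,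
      mul_one, Polynomial.coeff_C_succ, add_zero] at this
    exact Units.ext this
  · have := congrArg (fun q => Polynomial.coeff q 0) h6
    simpa only [Polynomial.coeff_add, Polynomial.coeff_smul, Polynomial.coeff_X_zero, smul_eq_mul,
      mul_zero, Polynomial.coeff_C_zero, zero_add] using this

/-! ## the symmetries of `P` -/

/-- `P(m X + n) = m ^ deg P * P(X)` -/
def Sym (P : k[X]) (m : kˣ) (n : k) : Prop :=
  P.comp ((m : k) • Polynomial.X + Polynomial.C n) = ((m : k) ^ P.natDegree) • P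

theorem IsJ.sym [IsDomain k] (hP : 2 ≤ P.natDegree) {g : SA P ≃ₐ[k] SA P} {a m : kˣ} {n : k}
    {F : k[X]} (h : IsJ g a m n F) : Sym P m n := by
  have hP0 : P ≠ 0 := by
    rintro rfl
    rw [Polynomial.natDegree_zero] at hP
    omega
  obtain ⟨h1, h2⟩ := h
  -- the point `(0, 0, root)`
  let f : SA P →ₐ[k] AdjoinRoot P := pt 0 0 (AdjoinRoot.root P) (by
    rw [mul_zero]
    exact (AdjoinRoot.aeval_eq P).trans AdjoinRoot.mk_self |>.symm)
  have h3 := congrArg f (hom_rel (g : SA P →ₐ[k] SA P))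
  have fx : f (gx P) = 0 := pt_x _ _ _ _
  have fz : f (gz P) = AdjoinRoot.root P := pt_z _ _ _ _
  rw [map_mul, ← Polynomial.aeval_algHom_apply] at h3
  change f (g (gx P)) * f (g (gy P)) = Polynomial.aeval (f (g (gz P))) P at h3
  rw [h1, h2, map_smul, map_add, map_add, map_mul, fx, smul_zero, zero_mul, zero_mul, add_zero,
    map_smul, fz, AlgHom.commutes] at h3
  have h4 : Polynomial.aeval (AdjoinRoot.root P) (P.comp ((m : k) • Polynomial.X + Polynomial.C n)) = 0 := by
    rw [Polynomial.aeval_comp, map_add, map_smul, Polynomial.aeval_X, Polynomial.aeval_C]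
    exact h3.symm
  rw [AdjoinRoot.aeval_eq, AdjoinRoot.mk_eq_zero] at h4
  obtain ⟨q, hq⟩ := h4
  have hm : (m : k) ≠ 0 := m.ne_zero
  have hlin : ((m : k) • Polynomial.X + Polynomial.C n : k[X]).natDegree = 1 := by
    rw [Polynomial.smul_eq_C_mul]
    exact Polynomial.natDegree_linear hm
  have hlc : ((m : k) • Polynomial.X + Polynomial.C n : k[X]).leadingCoeff = m := by
    rw [Polynomial.smul_eq_C_mul]
    exact Polynomial.leadingCoeff_linear hm
  have h5 : (P.comp ((m : k) • Polynomial.X + Polynomial.C n)).natDegree = P.natDegree := by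
    rw [Polynomial.natDegree_comp, hlin, mul_one]
  have hq0 : q ≠ 0 := by
    rintro rfl
    rw [mul_zero] at hq
    rw [hq, Polynomial.natDegree_zero] at h5
    omega
  have h6 : q.natDegree = 0 := by
    rw [hq, Polynomial.natDegree_mul hP0 hq0] at h5
    omega
  obtain ⟨c, hc⟩ : ∃ c, q = Polynomial.C c := ⟨_, Polynomial.eq_C_of_natDegree_eq_zero h6⟩
  have h7 := congrArg Polynomial.leadingCoeff hq
  rw [Polynomial.leadingCoeff_comp (by rw [hlin]; exact one_ne_zero), hlc, hc,
    Polynomial.leadingCoeff_mul, Polynomial.leadingCoeff_C] at h7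
  have h8 := mul_left_cancel₀ (Polynomial.leadingCoeff_ne_zero.2 hP0) h7
  unfold Sym
  rw [hq, hc, ← h8, mul_comm, ← Polynomial.smul_eq_C_mul]

theorem Sym.inv {m : kˣ} {n : k} (h : Sym P m n) : Sym P m⁻¹ (-(((m⁻¹ : kˣ) : k) * n)) := by
  unfold Sym at h ⊢
  have h1 := congrArg (fun q => ((((m⁻¹ : kˣ) : k)) ^ P.natDegree) •
    q.comp (((m⁻¹ : kˣ) : k) • Polynomial.X + Polynomial.C (-(((m⁻¹ : kˣ) : k) * n)))) h
  beta_reduce at h1
  rw [Polynomial.smul_comp, smul_smul, ← mul_pow, Units.inv_mul, one_pow, one_smul,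
    Polynomial.comp_assoc] at h1
  rw [← h1]
  congr 1
  have h2 : ((m : k) • Polynomial.X + Polynomial.C n : k[X]).comp
      (((m⁻¹ : kˣ) : k) • Polynomial.X + Polynomial.C (-(((m⁻¹ : kˣ) : k) * n))) = Polynomial.X := by
    rw [Polynomial.add_comp, Polynomial.smul_comp, Polynomial.X_comp, Polynomial.C_comp, smul_add,
      smul_smul, Units.mul_inv, one_smul, Polynomial.smul_C, smul_eq_mul, mul_neg, ← mul_assoc,
      Units.mul_inv, one_mul, map_neg, neg_add_cancel_right]
  rw [h2, Polynomial.comp_X]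

/-- the linear substitution with the data `a`, `m`, `n` -/
noncomputable def eh (a m : kˣ) (n : k) (h : Sym P m n) : SA P →ₐ[k] SA P :=
  pt ((a : k) • gx P) (((m : k) ^ P.natDegree * ((a⁻¹ : kˣ) : k)) • gy P)
    ((m : k) • gz P + algebraMap k (SA P) n) (by
      have h1 := congrArg (Polynomial.aeval (gz P)) h
      rw [Polynomial.aeval_comp, map_add, map_smul, Polynomial.aeval_X, Polynomial.aeval_C,
        map_smul, ← gxy] at h1
      rw [h1, smul_mul_smul_comm, mul_comm ((m : k) ^ P.natDegree), ← mul_assoc, Units.mul_inv,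
        one_mul])

theorem eh_comp (a m : kˣ) (n : k) (h : Sym P m n) (a' m' : kˣ) (n' : k) (h' : Sym P m' n')
    (ha : (a' : k) * a = 1) (hm : (m' : k) * m = 1) (hn : (m' : k) * n + n' = 0) :
    (eh a m n h).comp (eh a' m' n' h') = AlgHom.id k (SA P) := by
  have ha' : ((a'⁻¹ : kˣ) : k) = a := by
    rw [Units.inv_eq_of_mul_eq_one_right ha]
  have ha'' : ((a⁻¹ : kˣ) : k) = a' := by
    rw [Units.inv_eq_of_mul_eq_one_left ha]
  apply hom_ext
  · show eh a m n h (eh a' m' n' h' (gx P)) = gx P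
    rw [eh, eh, pt_x, map_smul, pt_x, smul_smul, ha, one_smul]
  · show eh a m n h (eh a' m' n' h' (gy P)) = gy P
    rw [eh, eh, pt_y, map_smul, pt_y, smul_smul, ha', ha'']
    have : (m' : k) ^ P.natDegree * a * ((m : k) ^ P.natDegree * a') = 1 := by
      calc (m' : k) ^ P.natDegree * a * ((m : k) ^ P.natDegree * a') =
          ((m' : k) * m) ^ P.natDegree * ((a' : k) * a) := by rw [mul_pow]; ring
        _ = 1 := by rw [hm, ha, one_pow, one_mul]
    rw [this, one_smul]
  · show eh a m n h (eh a' m' n' h' (gz P)) = gz P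
    rw [eh, eh, pt_z, map_add, map_smul, pt_z, AlgHom.commutes, smul_add, smul_smul, hm, one_smul,
      Algebra.smul_def, ← map_mul, add_assoc, ← map_add, hn, map_zero, add_zero]

/-- the linear automorphism with the data `a`, `m`, `n` -/
noncomputable def E (a m : kˣ) (n : k) (h : Sym P m n) : SA P ≃ₐ[k] SA P :=
  AlgEquiv.ofAlgHom (eh a m n h) (eh a⁻¹ m⁻¹ (-(((m⁻¹ : kˣ) : k) * n)) h.inv)
    (eh_comp _ _ _ _ _ _ _ _ (Units.inv_mul a) (Units.inv_mul m) (add_neg_cancel _))
    (eh_comp _ _ _ _ _ _ _ _ (Units.mul_inv a) (Units.mul_inv m) (by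
      rw [mul_neg, ← mul_assoc, Units.mul_inv, one_mul, neg_add_cancel]))

theorem E_x (a m : kˣ) (n : k) (h : Sym P m n) : E a m n h (gx P) = (a : k) • gx P := by
  show eh a m n h (gx P) = _
  unfold eh
  exact pt_x _ _ _ _
theorem E_y (a m : kˣ) (n : k) (h : Sym P m n) :
    E a m n h (gy P) = ((m : k) ^ P.natDegree * ((a⁻¹ : kˣ) : k)) • gy P := by
  show eh a m n h (gy P) = _
  unfold eh
  exact pt_y _ _ _ _
theorem E_z (a m : kˣ) (n : k) (h : Sym P m n) :
    E a m n h (gz P) = (m : k) • gz P + algebraMap k (SA P) n := by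
  show eh a m n h (gz P) = _
  unfold eh
  exact pt_z _ _ _ _

theorem E_isJ (a m : kˣ) (n : k) (h : Sym P m n) : IsJ (E a m n h) a m n 0 :=
  ⟨E_x a m n h, by rw [E_z, map_zero, mul_zero, add_zero]⟩

end Pool.Agent.X265.Dan
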