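import Pool.Agent.X265.Dan.Base

/-!
# The automorphism groups of the surfaces `x y = P(z)`
-/

set_option autoImplicit false

namespace Pool.Agent.X265.Dan

open scoped Polynomial
open Pool.Agent.Y110.FJ Pool.Agent.X176.FJ Pool.Agent.X265.Ngo

variable {k : Type} [CommRing k] {P : k[X]}

/-- `x` (for `true`) and `y` (for `false`) -/
noncomputable def gc (P : k[X]) (i : Bool) : SA P := if i then gx P else gy P

/-- `g` is the linear automorphism with the data `s`, `a`, `m`, `n` -/
def IsL (g : SA P ≃ₐ[k] SA P) (s : Equiv.Perm Bool) (a : Bool → kˣ) (m : kˣ) (n : k) : Prop :=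
  (∀ i, g (gc P i) = (a i : k) • gc P (s i)) ∧ g (gz P) = (m : k) • gz P + algebraMap k (SA P) n

theorem IsL.mul {g h : SA P ≃ₐ[k] SA P} {s s' : Equiv.Perm Bool} {a a' : Bool → kˣ} {m m' : kˣ}
    {n n' : k} (hg : IsL g s a m n) (hh : IsL h s' a' m' n') :
    IsL (g * h) (s * s') (fun i => a' i * a (s' i)) (m' * m) (m' * n + n') := by
  obtain ⟨g1, g2⟩ := hg
  obtain ⟨h1, h2⟩ := hh
  refine ⟨fun i => ?_, ?_⟩
  · rw [AlgEquiv.mul_apply, h1, map_smul, g1, smul_smul, Units.val_mul]
    rfl
  · rw [AlgEquiv.mul_apply, h2, map_add, map_smul, g2, AlgEquiv.commutes]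
    simp only [Algebra.smul_def, map_add, map_mul, Units.val_mul]
    ring

theorem isL_one : IsL (1 : SA P ≃ₐ[k] SA P) 1 (fun _ => 1) 1 0 := by
  refine ⟨fun i => ?_, ?_⟩ <;> simp

theorem IsL.inv {g : SA P ≃ₐ[k] SA P} {s : Equiv.Perm Bool} {a : Bool → kˣ} {m : kˣ} {n : k}
    (hg : IsL g s a m n) : IsL g⁻¹ s⁻¹ (fun i => (a (s⁻¹ i))⁻¹) m⁻¹ (-(((m⁻¹ : kˣ) : k) * n)) := by
  obtain ⟨g1, g2⟩ := hg
  refine ⟨fun i => ?_, ?_⟩
  · have h1 : g⁻¹ (g (gc P (s⁻¹ i))) = gc P (s⁻¹ i) := g.symm_apply_apply _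
    rw [g1, map_smul, show s (s⁻¹ i) = i from s.apply_symm_apply i] at h1
    calc g⁻¹ (gc P i) = (((a (s⁻¹ i))⁻¹ : kˣ) : k) • (a (s⁻¹ i) : k) • g⁻¹ (gc P i) := by
          rw [smul_smul, Units.inv_mul, one_smul]
      _ = _ := by rw [h1]
  · have h1 : g⁻¹ (g (gz P)) = gz P := g.symm_apply_apply _
    rw [g2, map_add, map_smul, AlgEquiv.commutes] at h1
    have h2 := eq_sub_of_add_eq h1
    calc g⁻¹ (gz P) = ((m⁻¹ : kˣ) : k) • (m : k) • g⁻¹ (gz P) := by
          rw [smul_smul, Units.inv_mul, one_smul]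
      _ = _ := by
        rw [h2]
        simp only [Algebra.smul_def, map_neg, map_mul]
        ring

variable (P) in
/-- the linear automorphisms -/
def L : Subgroup (SA P ≃ₐ[k] SA P) where
  carrier := {g | ∃ s a m n, IsL g s a m n}
  one_mem' := ⟨_, _, _, _, isL_one⟩
  mul_mem' := by
    rintro g h ⟨s, a, m, n, hg⟩ ⟨s', a', m', n', hh⟩
    exact ⟨_, _, _, _, hg.mul hh⟩
  inv_mem' := by
    rintro g ⟨s, a, m, n, hg⟩
    exact ⟨_, _, _, _, hg.inv⟩

/-- the linear automorphisms with trivial permutation are triangular -/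
theorem IsL.isJ {g : SA P ≃ₐ[k] SA P} {s : Equiv.Perm Bool} {a : Bool → kˣ} {m : kˣ} {n : k}
    (hg : IsL g s a m n) (hs : s true = true) : IsJ g (a true) m n 0 := by
  obtain ⟨g1, g2⟩ := hg
  refine ⟨?_, ?_⟩
  · have := g1 true
    rw [hs] at this
    exact this
  · rw [g2, map_zero, mul_zero, add_zero]

theorem E_mem_L (a m : kˣ) (n : k) (h : Sym P m n) : E a m n h ∈ L P := by
  refine ⟨1, fun i => if i then a else m ^ P.natDegree * a⁻¹, m, n, fun i => ?_, E_z a m n h⟩
  cases i
  · have e : (((m ^ P.natDegree * a⁻¹ : kˣ)) : k) = (m : k) ^ P.natDegree * ((a⁻¹ : kˣ) : k) := by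
      rw [Units.val_mul, Units.val_pow_eq_pow_val]
    show E a m n h (gy P) = ((m ^ P.natDegree * a⁻¹ : kˣ) : k) • gy P
    rw [E_y, e]
  · exact E_x a m n h

theorem E_mem_J (a m : kˣ) (n : k) (h : Sym P m n) : E a m n h ∈ J P :=
  ⟨a, m, n, 0, E_isJ a m n h⟩

section dom

variable [IsDomain k]

theorem ne_zero_of_deg (hP : 2 ≤ P.natDegree) : P ≠ 0 := by
  rintro rfl
  rw [Polynomial.natDegree_zero] at hP
  omega

/-- a triangular automorphism with `F = 0` is linear -/
theorem IsJ.eq_E (hP : 2 ≤ P.natDegree) {g : SA P ≃ₐ[k] SA P} {a m : kˣ} {n : k}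
    (h : IsJ g a m n 0) : g = E a m n (h.sym hP) := by
  apply ext_xz (ne_zero_of_deg hP)
  · rw [h.1, E_x]
  · rw [h.2, E_z, map_zero, mul_zero, add_zero]

theorem exJ (g : J P) : ∃ t : kˣ × kˣ × k × k[X], IsJ g.1 t.1 t.2.1 t.2.2.1 t.2.2.2 := by
  obtain ⟨a, m, n, F, h⟩ := g.2
  exact ⟨(a, m, n, F), h⟩

theorem exJ_eq (hP : 2 ≤ P.natDegree) (g : J P) {a m : kˣ} {n : k} {F : k[X]} (h : IsJ g.1 a m n F) :
    (exJ g).choose = (a, m, n, F) := by
  obtain ⟨e1, e2, e3, e4⟩ := (exJ g).choose_spec.unique hP h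
  exact Prod.ext e1 (Prod.ext e2 (Prod.ext e3 e4))

/-- the homomorphism to `kˣ × kˣ` -/
noncomputable def lamJ (hP : 2 ≤ P.natDegree) : J P →* kˣ × kˣ :=
  MonoidHom.mk' (fun g => ((exJ g).choose.1, (exJ g).choose.2.1)) (by
    intro g h
    obtain ⟨a, m, n, F, h1⟩ := g.2
    obtain ⟨a', m', n', F', h2⟩ := h.2
    rw [exJ_eq hP g h1, exJ_eq hP h h2, exJ_eq hP (g * h) (h1.mul h2)]
    exact Prod.ext (mul_comm _ _) (mul_comm _ _))

theorem lamJ_eq (hP : 2 ≤ P.natDegree) (g : J P) {a m : kˣ} {n : k} {F : k[X]}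
    (h : IsJ g.1 a m n F) : lamJ hP g = (a, m) := by
  show ((exJ g).choose.1, (exJ g).choose.2.1) = _
  rw [exJ_eq hP g h]

/-- the action on the points over `k[t]` -/
@[reducible] noncomputable def actP (P : k[X]) : MulAction (SA P ≃ₐ[k] SA P) (SA P →ₐ[k] k[X]) where
  smul g f := f.comp ((g⁻¹ : SA P ≃ₐ[k] SA P) : SA P →ₐ[k] SA P)
  one_smul f := by
    apply AlgHom.ext
    intro x
    show f ((1 : SA P ≃ₐ[k] SA P)⁻¹ x) = f x
    rw [inv_one]
    rfl
  mul_smul g h f := by
    apply AlgHom.ext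
    intro x
    show f ((g * h)⁻¹ x) = f (h⁻¹ (g⁻¹ x))
    rw [mul_inv_rev]
    rfl

variable {C : ∀ (G : Type) [Group G], Prop}

theorem c_comm
    (hab : ∀ (H : Type) [Group H] (A : Subgroup H) [A.Normal], (∀ a ∈ A, ∀ b ∈ A, a * b = b * a) →
      IsCyclic (H ⧸ A) → C H) (G : Type) [CommGroup G] : C G := by
  refine hab G ⊤ (fun a _ b _ => mul_comm a b) ?_
  have : Subsingleton (G ⧸ (⊤ : Subgroup G)) := QuotientGroup.subsingleton_quotient_top
  exact isCyclic_of_subsingleton

theorem point_deg {R : Type} [CommRing R] [IsDomain R] [Algebra k R] (f : SA P →ₐ[k] k[X]) :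
    P.natDegree * (f (gz P)).natDegree ≤ (f (gx P)).natDegree + (f (gy P)).natDegree := by
  have h := hom_rel f
  have h1 : Polynomial.aeval (f (gz P)) P = P.comp (f (gz P)) := rfl
  rw [h1] at h
  rw [← Polynomial.natDegree_comp, ← h]
  exact Polynomial.natDegree_mul_le

/-- **automorphisms of the surfaces `x y = P(z)`** -/
theorem main (hC : ClosedE C)
    (hab : ∀ (H : Type) [Group H] (A : Subgroup H) [A.Normal], (∀ a ∈ A, ∀ b ∈ A, a * b = b * a) →
      IsCyclic (H ⧸ A) → C H) (hP3 : 3 ≤ P.natDegree) : C ↥(J P ⊔ L P) := by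
  classical
  have hP : 2 ≤ P.natDegree := by omega
  have hP0 := ne_zero_of_deg hP
  let _ := actP P
  have hsm : ∀ (g : SA P ≃ₐ[k] SA P) (f : SA P →ₐ[k] k[X]) (x : SA P), (g • f) x = f (g⁻¹ x) :=
    fun _ _ _ => rfl
  let ρ : (SA P ≃ₐ[k] SA P) → (SA P ≃ₐ[k] SA P) := fun g =>
    if h : g ∈ J P then E (exJ ⟨g, h⟩).choose.1 (exJ ⟨g, h⟩).choose.2.1 (exJ ⟨g, h⟩).choose.2.2.1
      ((exJ ⟨g, h⟩).choose_spec.sym hP) else 1
  have hρe : ∀ {g : SA P ≃ₐ[k] SA P} {a m : kˣ} {n : k} {F : k[X]} (h : IsJ g a m n F),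
      ρ g = E a m n (h.sym hP) := by
    intro g a m n F h
    have hg : g ∈ J P := ⟨a, m, n, F, h⟩
    have h1 : ρ g = E (exJ ⟨g, hg⟩).choose.1 (exJ ⟨g, hg⟩).choose.2.1 (exJ ⟨g, hg⟩).choose.2.2.1
      ((exJ ⟨g, hg⟩).choose_spec.sym hP) := dif_pos hg
    rw [h1]
    have h2 := exJ_eq hP ⟨g, hg⟩ h
    apply ext_xz hP0
    · rw [E_x, E_x, h2]
    · rw [E_z, E_z, h2]
  have hcne : ∀ (c : kˣ) (Q : k[X]), ((c : k) • Q).natDegree = Q.natDegree := by
    intro c Q
    rw [Polynomial.smul_eq_C_mul]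
    exact Polynomial.natDegree_C_mul c.ne_zero
  have hpd : ∀ f : SA P →ₐ[k] k[X],
      P.natDegree * (f (gz P)).natDegree ≤ (f (gx P)).natDegree + (f (gy P)).natDegree :=
    fun f => point_deg (R := k[X]) f
  have hLJ : ∀ g ∈ L P, g ∉ J P → ∃ s a m n, IsL g s a m n ∧ s true = false ∧ s false = true := by
    rintro g ⟨s, a, m, n, h⟩ hgJ
    have h1 : s true = false := by
      cases hst : s true
      · rfl
      · exact absurd ⟨_, _, _, _, h.isJ hst⟩ hgJ
    have h2 : s false = true := by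
      cases hsf : s false
      · have := s.injective (h1.trans hsf.symm)
        exact absurd this (by decide)
      · rfl
    exact ⟨s, a, m, n, h, h1, h2⟩
  have hCu : C (kˣ × kˣ) := c_comm hab _
  have hCJ : C (J P) := by
    refine c_abker hC hab (lamJ hP) hCu ?_
    intro g h hg hh
    obtain ⟨a, m, n, F, h1⟩ := g.2
    obtain ⟨a', m', n', F', h2⟩ := h.2
    rw [lamJ_eq hP g h1, Prod.mk_eq_one] at hg
    rw [lamJ_eq hP h h2, Prod.mk_eq_one] at hh
    obtain ⟨rfl, rfl⟩ := hg
    obtain ⟨rfl, rfl⟩ := hh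
    apply Subtype.ext
    have k1 := h1.mul h2
    have k2 := h2.mul h1
    apply ext_xz hP0
    · show (g.1 * h.1) (gx P) = (h.1 * g.1) (gx P)
      rw [k1.1, k2.1]
    · show (g.1 * h.1) (gz P) = (h.1 * g.1) (gz P)
      rw [k1.2, k2.2]
      have e1 : ((1 : kˣ) : k) • F + ((1 : kˣ) : k) • F'.comp (((1 : kˣ) : k) • Polynomial.X) =
          ((1 : kˣ) : k) • F' + ((1 : kˣ) : k) • F.comp (((1 : kˣ) : k) • Polynomial.X) := by
        simp only [Units.val_one, one_smul, Polynomial.comp_X]
        exact add_comm _ _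
      rw [e1, Units.val_one, one_mul n, one_mul n', add_comm n n']
  have hCL : C (L P) := by
    let K : Subgroup (L P) := (J P).subgroupOf (L P)
    have hCK : C K := by
      let f : K →* J P := MonoidHom.mk' (fun g => ⟨g.1.1, g.2⟩) (fun _ _ => rfl)
      refine hC.base.of_injective _ _ f ?_ hCJ
      intro g h hgh
      apply Subtype.ext
      apply Subtype.ext
      exact congrArg (fun x : J P => x.1) hgh
    have hfin : K.FiniteIndex := by
      by_cases hall : ∀ g : L P, g ∈ K
      · have : K = ⊤ := by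
          rw [eq_top_iff]
          intro g _
          exact hall g
        rw [this]
        infer_instance
      · push Not at hall
        obtain ⟨a, ha⟩ := hall
        have hprod : ∀ b c : L P, b ∉ K → c ∉ K → b * c ∈ K := by
          intro b c hb hc
          obtain ⟨s, u, m, n, h1, h2, h3⟩ := hLJ b.1 b.2 hb
          obtain ⟨s', u', m', n', h1', h2', h3'⟩ := hLJ c.1 c.2 hc
          have h4 := h1.mul h1'
          exact ⟨_, _, _, _, h4.isJ (by show s (s' true) = true; rw [h2', h3])⟩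
        have h2 : K.index = 2 := by
          rw [Subgroup.index_eq_two_iff]
          refine ⟨a, fun b => ?_⟩
          by_cases hb : b ∈ K
          · right
            refine ⟨hb, fun h => ha ?_⟩
            have := K.mul_mem (K.inv_mem hb) h
            rwa [inv_mul_cancel_left] at this
          · left
            exact ⟨hprod b a hb ha, hb⟩
        exact ⟨by rw [h2]; exact two_ne_zero⟩
    exact hC.base.finiteIndex _ K hfin hCK
  have key := c_gen (C := C) hC (Ω := SA P →ₐ[k] k[X]) (M := ℕ) (J P) (L P)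
    {f | (f (gy P)).natDegree < (f (gx P)).natDegree}
    {f | (f (gx P)).natDegree < (f (gy P)).natDegree}
    (fun f => max (f (gx P)).natDegree (f (gy P)).natDegree)
    ⟨p1 P, by
      show Polynomial.natDegree _ < Polynomial.natDegree _
      rw [p1_x, p1_y, Polynomial.natDegree_one]
      omega⟩
    ⟨pt 1 P Polynomial.X (by rw [one_mul, Polynomial.aeval_X_left_apply]), by
      show Polynomial.natDegree _ < Polynomial.natDegree _
      rw [pt_x, pt_y, Polynomial.natDegree_one]
      omega⟩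
    ?_ ?_ ρ ?_ ?_ ?_
  · exact key.2 ⟨hCJ, hCL⟩
  · -- triangular automorphisms
    intro g hg hgL f hf
    have hf' : (f (gy P)).natDegree < (f (gx P)).natDegree := hf
    obtain ⟨a, m, n, F, h⟩ := (J P).inv_mem hg
    have hF : F ≠ 0 := by
      rintro rfl
      apply hgL
      rw [← (L P).inv_mem_iff, h.eq_E hP]
      exact E_mem_L _ _ _ _
    have hx : (g • f) (gx P) = (a : k) • f (gx P) := by rw [hsm, h.1, map_smul]
    have hz : (g • f) (gz P) = ((m : k) • f (gz P) + Polynomial.C n) + f (gx P) * F.comp (f (gx P)) := by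
      rw [hsm, h.2, map_add, map_add, map_smul, map_mul, AlgHom.commutes,
        ← Polynomial.aeval_algHom_apply]
      rfl
    have hd := hpd f
    have hdz : (f (gz P)).natDegree < (f (gx P)).natDegree := by nlinarith
    have hx0 : f (gx P) ≠ 0 := by
      intro h0
      rw [h0, Polynomial.natDegree_zero] at hf'
      omega
    have hFc : F.comp (f (gx P)) ≠ 0 := by
      intro h0
      rcases Polynomial.comp_eq_zero_iff.1 h0 with h6 | ⟨-, h6⟩
      · exact hF h6
      · rw [h6, Polynomial.natDegree_C] at hf'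
        omega
    have hd1 : (f (gx P) * F.comp (f (gx P))).natDegree =
        (f (gx P)).natDegree + F.natDegree * (f (gx P)).natDegree := by
      rw [Polynomial.natDegree_mul hx0 hFc, Polynomial.natDegree_comp]
    have hzd : ((g • f) (gz P)).natDegree =
        (f (gx P)).natDegree + F.natDegree * (f (gx P)).natDegree := by
      rw [hz, ← hd1]
      apply Polynomial.natDegree_add_eq_right_of_natDegree_lt
      rw [hd1]
      refine lt_of_le_of_lt (Polynomial.natDegree_add_C.le) ?_
      rw [hcne]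
      omega
    have hxd : ((g • f) (gx P)).natDegree = (f (gx P)).natDegree := by rw [hx, hcne]
    have hrel := hom_rel (g • f)
    have hPd : (Polynomial.aeval ((g • f) (gz P)) P).natDegree =
        P.natDegree * ((g • f) (gz P)).natDegree := Polynomial.natDegree_comp
    have hyd : ((g • f) (gx P)).natDegree + ((g • f) (gy P)).natDegree =
        P.natDegree * ((g • f) (gz P)).natDegree := by
      rw [← hPd, ← hrel]
      symm
      apply Polynomial.natDegree_mul
      · intro h0
        rw [h0, Polynomial.natDegree_zero] at hxd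
        omega
      · intro h0
        rw [h0, mul_zero] at hrel
        rw [← hrel, Polynomial.natDegree_zero, hzd] at hPd
        have h7 : 0 < P.natDegree * ((f (gx P)).natDegree + F.natDegree * (f (gx P)).natDegree) :=
          Nat.mul_pos (by omega) (by omega)
        omega
    have hgt : (f (gx P)).natDegree < ((g • f) (gy P)).natDegree := by
      rw [hxd, hzd] at hyd
      have h8 : 3 * (f (gx P)).natDegree ≤
          P.natDegree * ((f (gx P)).natDegree + F.natDegree * (f (gx P)).natDegree) :=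
        Nat.mul_le_mul hP3 (Nat.le_add_right _ _)
      omega
    refine ⟨?_, ?_⟩
    · show ((g • f) (gx P)).natDegree < ((g • f) (gy P)).natDegree
      rw [hxd]; exact hgt
    · show max (f (gx P)).natDegree (f (gy P)).natDegree <
        max ((g • f) (gx P)).natDegree ((g • f) (gy P)).natDegree
      rw [max_eq_left hf'.le]
      exact lt_max_of_lt_right hgt
  · -- linear automorphisms
    intro g hg hgJ f hf
    have hf' : (f (gx P)).natDegree < (f (gy P)).natDegree := hf
    obtain ⟨s, a, m, n, h, h1, h2⟩ := hLJ g⁻¹ ((L P).inv_mem hg)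
      (fun h => hgJ ((J P).inv_mem_iff.1 h))
    have hx : (g • f) (gx P) = (a true : k) • f (gy P) := by
      have := h.1 true
      rw [h1] at this
      rw [hsm, show g⁻¹ (gx P) = (a true : k) • gy P from this, map_smul]
    have hy : (g • f) (gy P) = (a false : k) • f (gx P) := by
      have := h.1 false
      rw [h2] at this
      rw [hsm, show g⁻¹ (gy P) = (a false : k) • gx P from this, map_smul]
    refine ⟨?_, ?_⟩
    · show ((g • f) (gy P)).natDegree < ((g • f) (gx P)).natDegree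
      rw [hx, hy, hcne, hcne]
      exact hf'
    · show max (f (gx P)).natDegree (f (gy P)).natDegree ≤
        max ((g • f) (gx P)).natDegree ((g • f) (gy P)).natDegree
      rw [hx, hy, hcne, hcne, max_comm]
  · intro g hg
    obtain ⟨a, m, n, F, h⟩ := hg
    rw [hρe h]
    exact ⟨E_mem_J _ _ _ _, E_mem_L _ _ _ _⟩
  · intro g hg h hh
    obtain ⟨a, m, n, F, h1⟩ := hg
    obtain ⟨a', m', n', F', h2⟩ := hh
    rw [hρe h1, hρe h2, hρe (h1.mul h2)]
    have k1 := (E_isJ a m n (h1.sym hP)).mul (E_isJ a' m' n' (h2.sym hP))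
    apply ext_xz hP0
    · rw [E_x, k1.1]
    · rw [E_z, k1.2]
      simp
  · rintro g ⟨hg, s, a, m, n, h⟩
    by_cases hs : s true = true
    · have h1 := h.isJ hs
      rw [hρe h1]
      exact (h1.eq_E hP).symm
    · -- impossible
      exfalso
      have hs' : s true = false := by
        cases hst : s true
        · rfl
        · exact absurd hst hs
      obtain ⟨a', m', n', F', h'⟩ := hg
      have e1 := h.1 true
      rw [hs'] at e1
      have e2 : (a true : k) • gy P = (a' : k) • gx P := (show g (gx P) = _ from e1).symm.trans h'.1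
      have e3 := congrArg (fun q => ((p1 P) q).natDegree) e2
      beta_reduce at e3
      rw [map_smul, map_smul, hcne, hcne, p1_x, p1_y, Polynomial.natDegree_one] at e3
      omega

end dom

end Pool.Agent.X265.Dan
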