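import Pool.Agent.X265.Dan.Main

/-!
# Existence of the triangular automorphisms and of the exchange; the group generated by them
-/

set_option autoImplicit false

namespace Pool.Agent.X265.Dan

open scoped Polynomial
open Pool.Agent.Y110.FJ Pool.Agent.X176.FJ Pool.Agent.X265.Ngo

variable {k : Type} [CommRing k] {P : k[X]}

theorem ex_factor (Q : k[X]) (u v : SA P) :
    ∃ w, Polynomial.aeval u Q - Polynomial.aeval v Q = w * (u - v) := by
  obtain ⟨w, h⟩ := Polynomial.evalSubFactor (Q.map (algebraMap k (SA P))) u v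
  refine ⟨w, ?_⟩
  rw [← Polynomial.eval_map_algebraMap, ← Polynomial.eval_map_algebraMap, h]

/-- the triangular substitution -/
noncomputable def th (P F : k[X]) : SA P →ₐ[k] SA P :=
  pt (gx P) (gy P + Polynomial.aeval (gx P) F *
      (ex_factor P (gz P + gx P * Polynomial.aeval (gx P) F) (gz P)).choose)
    (gz P + gx P * Polynomial.aeval (gx P) F) (by
      have h := (ex_factor P (gz P + gx P * Polynomial.aeval (gx P) F) (gz P)).choose_spec
      rw [mul_add, gxy]
      linear_combination -h)

theorem th_x (F : k[X]) : th P F (gx P) = gx P := by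
  unfold th
  exact pt_x _ _ _ _

theorem th_z (F : k[X]) : th P F (gz P) = gz P + gx P * Polynomial.aeval (gx P) F := by
  unfold th
  exact pt_z _ _ _ _

theorem hom_id [IsDomain k] (hP : P ≠ 0) {f : SA P →ₐ[k] SA P} (hx : f (gx P) = gx P)
    (hz : f (gz P) = gz P) : f = AlgHom.id k (SA P) := by
  refine hom_ext hx ?_ hz
  show f (gy P) = gy P
  have h1 := hom_rel f
  rw [hx, hz, ← gxy] at h1
  have h2 : gx P * (f (gy P) - gy P) = 0 := by rw [mul_sub, h1, sub_self]
  exact sub_eq_zero.1 (gx_reg hP h2)

theorem th_comp [IsDomain k] (hP : P ≠ 0) (F G : k[X]) (h : F + G = 0) :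
    (th P F).comp (th P G) = AlgHom.id k (SA P) := by
  apply hom_id hP
  · rw [AlgHom.comp_apply, th_x, th_x]
  · rw [AlgHom.comp_apply, th_z, map_add, map_mul, th_z, th_x, ← Polynomial.aeval_algHom_apply, th_x,
      add_assoc, ← mul_add, ← map_add, h, map_zero, mul_zero, add_zero]

/-- the triangular automorphism `x ↦ x`, `z ↦ z + x F(x)` -/
noncomputable def tri [IsDomain k] (hP : P ≠ 0) (F : k[X]) : SA P ≃ₐ[k] SA P :=
  AlgEquiv.ofAlgHom (th P F) (th P (-F)) (th_comp hP _ _ (add_neg_cancel F))
    (th_comp hP _ _ (neg_add_cancel F))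

/-- the exchange of `x` and `y` -/
noncomputable def exch (P : k[X]) : SA P ≃ₐ[k] SA P :=
  AlgEquiv.ofAlgHom (pt (gy P) (gx P) (gz P) (by rw [mul_comm, gxy]))
    (pt (gy P) (gx P) (gz P) (by rw [mul_comm, gxy]))
    (by
      apply hom_ext <;> rw [AlgHom.comp_apply, AlgHom.id_apply]
      · rw [pt_x, pt_y]
      · rw [pt_y, pt_x]
      · rw [pt_z, pt_z])
    (by
      apply hom_ext <;> rw [AlgHom.comp_apply, AlgHom.id_apply]
      · rw [pt_x, pt_y]
      · rw [pt_y, pt_x]
      · rw [pt_z, pt_z])

variable (P) in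
/-- the group generated by the automorphisms of the forms
`x ↦ a x`, `z ↦ m z + n + x F(x)` and `x ↦ a y`, `y ↦ a' x`, `z ↦ m z + n` -/
noncomputable def DG : Subgroup (SA P ≃ₐ[k] SA P) :=
  Subgroup.closure
    ({g | ∃ (a m : kˣ) (n : k) (F : k[X]), g (gx P) = (a : k) • gx P ∧
      g (gz P) = (m : k) • gz P + algebraMap k (SA P) n + gx P * Polynomial.aeval (gx P) F} ∪
    {g | ∃ (a a' m : kˣ) (n : k), g (gx P) = (a : k) • gy P ∧ g (gy P) = (a' : k) • gx P ∧
      g (gz P) = (m : k) • gz P + algebraMap k (SA P) n})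

theorem DG_eq : DG P = J P ⊔ L P := by
  apply le_antisymm
  · unfold DG
    rw [Subgroup.closure_le]
    rintro g (⟨a, m, n, F, h⟩ | ⟨a, a', m, n, h1, h2, h3⟩)
    · exact Subgroup.mem_sup_left ⟨a, m, n, F, h⟩
    · refine Subgroup.mem_sup_right ⟨Equiv.swap true false, fun i => if i then a else a', m, n,
        fun i => ?_, h3⟩
      cases i
      · exact h2
      · exact h1
  · apply sup_le
    · rintro g ⟨a, m, n, F, h⟩
      exact Subgroup.subset_closure (Or.inl ⟨a, m, n, F, h⟩)
    · rintro g ⟨s, a, m, n, h⟩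
      cases hs : s true
      · have h2 : s false = true := by
          cases hsf : s false
          · have := s.injective (hs.trans hsf.symm)
            exact absurd this (by decide)
          · rfl
        refine Subgroup.subset_closure (Or.inr ⟨a true, a false, m, n, ?_, ?_, h.2⟩)
        · have := h.1 true
          rw [hs] at this
          exact this
        · have := h.1 false
          rw [h2] at this
          exact this
      · exact Subgroup.subset_closure (Or.inl ⟨_, _, _, _, h.isJ hs⟩)

theorem c_DG {C : ∀ (G : Type) [Group G], Prop} [IsDomain k] (hC : ClosedE C)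
    (hab : ∀ (H : Type) [Group H] (A : Subgroup H) [A.Normal], (∀ a ∈ A, ∀ b ∈ A, a * b = b * a) →
      IsCyclic (H ⧸ A) → C H) (hP : 3 ≤ P.natDegree) : C ↥(DG P) := by
  rw [DG_eq]
  exact main hC hab hP

end Pool.Agent.X265.Dan
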